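import Pool.Agent.W313.HB.Nat2
import Pool.Agent.W313.HB.RatioFinal
import Pool.Agent.W409.HB.AllP

/-!
# Rational points and weak approximation for 100% of the twists of a diagonal conic bundle

Let `A, B, C ∈ ℤ[x_0, ..., x_n]` be forms whose product is squarefree over `ℚ`, with degrees of the
same parity and `C` not constant. For `100%` of the pairs `(a, b)` of nonzero integers for which the
conic bundle `a A(x) u² + b B(x) v² = C(x) w²` over `ℙⁿ` has points everywhere locally (this is a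
positive proportion of all pairs), it has a rational point. The base points of the local points and
of the rational point can be prescribed in open sets.
-/

set_option autoImplicit false

namespace Pool.Agent.Results.MP_12adaf_nt.TwistedConicBundles

open Pool.Agent.W313.HB

/-- The conic bundle `a A(x) u² + b B(x) v² = C(x) w²` has a point over the field `K` in a smooth
fibre over a point `x` of the set `Ω`. -/
def HasPoint {n : ℕ} (A B C : MvPolynomial (Fin (n + 1)) ℤ) (a b : ℤ) {K : Type} [Field K]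
    (Ω : Set (Fin (n + 1) → K)) : Prop :=
  ∃ x ∈ Ω, MvPolynomial.aeval x (A * B * C) ≠ 0 ∧ ∃ u v w : K, (u ≠ 0 ∨ v ≠ 0 ∨ w ≠ 0) ∧
    (a : K) * MvPolynomial.aeval x A * u ^ 2 + (b : K) * MvPolynomial.aeval x B * v ^ 2 =
      MvPolynomial.aeval x C * w ^ 2

/-- Nonempty open sets `re` of `ℝ ^ (n + 1)` and `pa p` of `ℚ_p ^ (n + 1)`, almost all of them equal
to the whole space. -/
structure OpenSets (n : ℕ) where
  /-- the real set -/
  re : Set (Fin (n + 1) → ℝ)
  /-- the `p`-adic sets -/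
  pa : ∀ p : Nat.Primes, Set (Fin (n + 1) → ℚ_[(p : ℕ)])
  isOpen_re : IsOpen re
  isOpen_pa : ∀ p, IsOpen (pa p)
  nonempty_re : re.Nonempty
  nonempty_pa : ∀ p, (pa p).Nonempty
  finite : {p : Nat.Primes | pa p ≠ Set.univ}.Finite

/-- The pairs of nonzero integers of absolute value at most `H` for which the conic bundle has a
point over `ℝ` and over every `ℚ_p`, in smooth fibres over points of the given open sets. -/
def locallySoluble {n : ℕ} (A B C : MvPolynomial (Fin (n + 1)) ℤ) (Ω : OpenSets n) (H : ℕ) :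
    Set (ℤ × ℤ) :=
  {x | |x.1| ≤ H ∧ |x.2| ≤ H ∧ x.1 ≠ 0 ∧ x.2 ≠ 0 ∧ HasPoint A B C x.1 x.2 Ω.re ∧
    ∀ p : Nat.Primes, HasPoint A B C x.1 x.2 (Ω.pa p)}

/-- The pairs of nonzero integers of absolute value at most `H` for which the conic bundle has a
rational point in a smooth fibre over a rational point which lies in all the given open sets. -/
def globallySoluble {n : ℕ} (A B C : MvPolynomial (Fin (n + 1)) ℤ) (Ω : OpenSets n) (H : ℕ) :
    Set (ℤ × ℤ) :=
  {x | |x.1| ≤ H ∧ |x.2| ≤ H ∧ x.1 ≠ 0 ∧ x.2 ≠ 0 ∧ HasPoint A B C x.1 x.2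
    {y : Fin (n + 1) → ℚ | (fun i => (y i : ℝ)) ∈ Ω.re ∧
      ∀ p : Nat.Primes, (fun i => (y i : ℚ_[(p : ℕ)])) ∈ Ω.pa p}}

lemma fin_of {H : ℕ} {S : Set (ℤ × ℤ)} (h : ∀ x ∈ S, |x.1| ≤ (H : ℤ) ∧ |x.2| ≤ (H : ℤ)) :
    S.Finite := by
  apply ((Set.finite_Icc (-(H : ℤ)) H).prod (Set.finite_Icc (-(H : ℤ)) H)).subset
  intro x hx
  have := h x hx
  rw [abs_le, abs_le] at this
  exact ⟨Set.mem_Icc.2 this.1, Set.mem_Icc.2 this.2⟩

theorem result (n α β γ : ℕ) (A B C : MvPolynomial (Fin (n + 1)) ℤ) (hA : A.IsHomogeneous α)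
    (hB : B.IsHomogeneous β) (hC : C.IsHomogeneous γ) (hαγ : Even (α + γ)) (hβγ : Even (β + γ))
    (hγ : 1 ≤ γ) (hsq : Squarefree (MvPolynomial.map (Int.castRingHom ℚ) (A * B * C)))
    (Ω : OpenSets n) :
    (∃ c : ℝ, 0 < c ∧ ∀ᶠ H : ℕ in Filter.atTop,
      c * (H : ℝ) ^ 2 ≤ ((locallySoluble A B C Ω H).ncard : ℝ)) ∧
    Filter.Tendsto (fun H : ℕ => ((globallySoluble A B C Ω H).ncard : ℝ) /
      ((locallySoluble A B C Ω H).ncard : ℝ)) Filter.atTop (nhds 1) := by
  have f1 : ∀ H : ℕ, (locallySoluble A B C Ω H).Finite := fun H =>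
    fin_of fun x hx => ⟨hx.1, hx.2.1⟩
  have f2 : ∀ H : ℕ, (globallySoluble A B C Ω H).Finite := fun H =>
    fin_of fun x hx => ⟨hx.1, hx.2.1⟩
  have h := Pool.Agent.W409.HB.allp_ t2f' ratio2' n α β γ A B C hA hB hC hαγ hβγ hγ hsq Ω.re Ω.pa Ω.isOpen_re Ω.isOpen_pa Ω.finite
    Ω.nonempty_re Ω.nonempty_pa (fun H => (f1 H).toFinset) (fun H => (f2 H).toFinset)
    (by
      intro H x
      rw [Set.Finite.mem_toFinset, Finset.mem_product, Finset.mem_Icc, Finset.mem_Icc, ← abs_le,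
        ← abs_le]
      exact ⟨fun h => ⟨⟨h.1, h.2.1⟩, h.2.2⟩, fun h => ⟨h.1.1, h.1.2, h.2⟩⟩)
    (by
      intro H x
      rw [Set.Finite.mem_toFinset, Finset.mem_product, Finset.mem_Icc, Finset.mem_Icc, ← abs_le,
        ← abs_le]
      exact ⟨fun h => ⟨⟨h.1, h.2.1⟩, h.2.2⟩, fun h => ⟨h.1.1, h.1.2, h.2⟩⟩)
  obtain ⟨⟨c, hc, H0, h1⟩, h2⟩ := h
  refine ⟨⟨c, hc, ?_⟩, ?_⟩
  · filter_upwards [Filter.eventually_ge_atTop H0] with H hH
    rw [Set.ncard_eq_toFinset_card _ (f1 H)]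
    exact h1 H hH
  · refine h2.congr fun H => ?_
    rw [Set.ncard_eq_toFinset_card _ (f1 H), Set.ncard_eq_toFinset_card _ (f2 H)]

end Pool.Agent.Results.MP_12adaf_nt.TwistedConicBundles
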